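import Mathlib
import Pool.Agent.Helper75.UF.Defs
import Pool.Agent.H601Z.FormDefs
import Pool.Agent.H601Z.FormH

set_option autoImplicit false

namespace Pool.Agent.Results.MP_456268_al.AUnique

open Pool.Agent.Helper75.UF Pool.Agent.H601Z.Form

/-- Q1 holds: inside a one-generated saturated formation, two factorisations
`F = F₁ ⋯ F_t = H₁ ⋯ H_s` into non-decomposable formations coincide (same length, same factors in
the same order).  The hypothesis `F ≠ F F` of the question is not needed. -/
theorem result (G₀ : Type) [Group G₀] [Finite G₀] (F : GroupClass)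
    (hsub : ∀ (H : Type) [Group H], F H → SatGen G₀ H) (F₁ H₁ : GroupClass)
    (l m : List GroupClass) (hl : ∀ X ∈ F₁ :: l, Indecomposable X)
    (hm : ∀ X ∈ H₁ :: m, Indecomposable X) (h₁ : F = prodList F₁ l) (h₂ : F = prodList H₁ m) :
    F₁ :: l = H₁ :: m :=
  main_unique G₀ F hsub F₁ H₁ l m hl hm h₁ h₂

end Pool.Agent.Results.MP_456268_al.AUnique
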